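import Pool.Agent.W966.Rk
import Pool.Agent.H630R2.LR.Defs

set_option autoImplicit false
set_option linter.unusedSectionVars false

/-!
# Sign matrices, their norms and the reduction to flat graphs
-/

namespace Pool.Agent.X224.LF

open Finset Matrix Pool.Agent.H630R2.LR Pool.Agent.W966.Kron

/-- The sign of a bit. -/
def sg (b : Bool) : ℝ := if b then -1 else 1

theorem sg_xor (a b : Bool) : sg (xor a b) = sg a * sg b := by
  cases a <;> cases b <;> norm_num [sg]

theorem sg_sq (a : Bool) : sg a * sg a = 1 := by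
  cases a <;> norm_num [sg]

theorem abs_sg (a : Bool) : |sg a| = 1 := by
  cases a <;> norm_num [sg]

section

variable {X Y : Type} [Fintype X] [Fintype Y]

/-- the communication matrix -/
def cm (F : X → Y → Bool) : Matrix X Y ℝ := Matrix.of fun x y => if F x y then (1 : ℝ) else 0

/-- The real rank of the communication matrix of `F`. -/
noncomputable def rk (F : X → Y → Bool) : ℕ :=
  (Matrix.of fun x y => if F x y then (1 : ℝ) else 0).rank

/-- The spectral norm of the sign matrix of `F` is at most `t`. -/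
def NormLe (F : X → Y → Bool) (t : ℝ) : Prop :=
  ∀ (f : X → ℝ) (g : Y → ℝ),
    |∑ x, ∑ y, sg (F x y) * f x * g y| ≤ t * √(∑ x, f x ^ 2) * √(∑ y, g y ^ 2)

/-- the sign matrix -/
def sgn (F : X → Y → Bool) : Matrix X Y ℝ := Matrix.of fun x y => sg (F x y)

theorem sgn_factor (F : X → Y → Bool) :
    ∃ (P : Matrix X (Option (Fin (rk F))) ℝ) (Q : Matrix (Option (Fin (rk F))) Y ℝ),
      sgn F = P * Q := by
  obtain ⟨P, Q, h⟩ : ∃ (P : Matrix X (Fin (rk F)) ℝ) (Q : Matrix (Fin (rk F)) Y ℝ), cm F = P * Q :=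
    exists_factor (cm F)
  refine ⟨Matrix.of fun x i => i.elim 1 (P x), Matrix.of fun i y => i.elim 1 fun j => -2 * Q j y, ?_⟩
  ext x y
  have h1 : cm F x y = ∑ i, P x i * Q i y := by
    conv_lhs => rw [h]
    rw [Matrix.mul_apply]
  rw [Matrix.mul_apply, Fintype.sum_option]
  simp only [Matrix.of_apply, Option.elim]
  have h2 : ∑ i, P x i * (-2 * Q i y) = -2 * cm F x y := by
    rw [h1, Finset.mul_sum]
    exact Finset.sum_congr rfl fun i _ => by ring
  rw [h2]
  show sg (F x y) = 1 * 1 + -2 * (if F x y then (1 : ℝ) else 0)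
  unfold sg
  split_ifs <;> norm_num

theorem rk_le_of_factor {κ : Type} [Fintype κ] (F : X → Y → Bool) (P : Matrix X κ ℝ)
    (Q : Matrix κ Y ℝ) (h : sgn F = P * Q) : rk F ≤ Fintype.card κ + 1 := by
  refine (rank_le_of_eq_mul (k := Option κ) (cm F)
    (Matrix.of fun x i => i.elim 1 (P x))
    (Matrix.of fun i y => i.elim (1 / 2) fun j => -(1 / 2) * Q j y) ?_).trans ?_
  · ext x y
    have h1 : sgn F x y = ∑ i, P x i * Q i y := by
      conv_lhs => rw [h]
      rw [Matrix.mul_apply]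
    rw [Matrix.mul_apply, Fintype.sum_option]
    simp only [Matrix.of_apply, Option.elim]
    have h2 : ∑ i, P x i * (-(1 / 2) * Q i y) = -(1 / 2) * sgn F x y := by
      rw [h1, Finset.mul_sum]
      exact Finset.sum_congr rfl fun i _ => by ring
    rw [h2]
    show (if F x y then (1 : ℝ) else 0) = 1 * (1 / 2) + -(1 / 2) * sg (F x y)
    unfold sg
    split_ifs <;> norm_num
  · rw [Fintype.card_option]

end

/-! ### The symplectic form -/

section

variable (m : ℕ)

/-- the space `F_2 ^ m × F_2 ^ m` -/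
abbrev Sp : Type := (Fin m → ZMod 2) × (Fin m → ZMod 2)

variable {m}

/-- the symplectic form -/
def om (u v : Sp m) : ZMod 2 := ∑ i, (u.1 i * v.2 i + u.2 i * v.1 i)

/-- the corresponding Boolean function -/
def W (u v : Sp m) : Bool := decide (om u v = 1)

theorem om_add_left (u u' v : Sp m) : om (u + u') v = om u v + om u' v := by
  unfold om
  rw [← Finset.sum_add_distrib]
  refine Finset.sum_congr rfl fun i _ => ?_
  simp only [Prod.fst_add, Prod.snd_add, Pi.add_apply]
  ring

theorem om_comm (u v : Sp m) : om u v = om v u := by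
  unfold om
  refine Finset.sum_congr rfl fun i _ => ?_
  ring

theorem om_self (u : Sp m) : om u u = 0 := by
  unfold om
  refine Finset.sum_eq_zero fun i _ => ?_
  have h : ∀ a b : ZMod 2, a * b + b * a = 0 := by decide
  exact h _ _

theorem om_add_right (u v v' : Sp m) : om u (v + v') = om u v + om u v' := by
  rw [om_comm, om_add_left, om_comm v, om_comm v']

theorem zmod2_ne {z : ZMod 2} (h : z ≠ 0) : z = 1 := by
  revert z
  decide

theorem exists_om {d : Sp m} (hd : d ≠ 0) : ∃ e, om e d = 1 := by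
  by_cases h : d.1 = 0
  · have h2 : d.2 ≠ 0 := fun h2 => hd (Prod.ext h h2)
    obtain ⟨i, hi⟩ := Function.ne_iff.1 h2
    refine ⟨(Pi.single i 1, 0), ?_⟩
    unfold om
    rw [Finset.sum_eq_single i]
    · simp [zmod2_ne hi]
    · intro j _ hj
      simp [Pi.single_eq_of_ne hj]
    · intro h; exact absurd (Finset.mem_univ _) h
  · obtain ⟨i, hi⟩ := Function.ne_iff.1 h
    refine ⟨(0, Pi.single i 1), ?_⟩
    unfold om
    rw [Finset.sum_eq_single i]
    · simp [zmod2_ne hi]
    · intro j _ hj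
      simp [Pi.single_eq_of_ne hj]
    · intro h; exact absurd (Finset.mem_univ _) h

/-- the sign of an element of `F_2` -/
def ch (z : ZMod 2) : ℝ := sg (decide (z = 1))

theorem ch_add (a b : ZMod 2) : ch (a + b) = ch a * ch b := by
  have key : ∀ a b : ZMod 2, decide (a + b = 1) = xor (decide (a = 1)) (decide (b = 1)) := by
    decide
  unfold ch
  rw [key, sg_xor]

theorem orth (v w : Sp m) :
    ∑ u : Sp m, ch (om u v) * ch (om u w) = if v = w then (4 : ℝ) ^ m else 0 := by
  have h1 : ∀ u : Sp m, ch (om u v) * ch (om u w) = ch (om u (v + w)) := by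
    intro u
    rw [om_add_right, ch_add]
  simp_rw [h1]
  split_ifs with h
  · subst h
    have h2 : v + v = 0 := by
      have : ∀ a : ZMod 2, a + a = 0 := by decide
      ext i
      · exact this _
      · exact this _
    rw [h2]
    have h3 : ∀ u : Sp m, ch (om u 0) = 1 := by
      intro u
      have : om u 0 = 0 := by
        unfold om
        simp
      rw [this]
      norm_num [ch, sg]
    simp_rw [h3]
    rw [Finset.sum_const, Finset.card_univ, Fintype.card_prod, Fintype.card_fun, ZMod.card,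
      Fintype.card_fin, nsmul_eq_mul, mul_one]
    push_cast
    rw [← mul_pow]
    norm_num
  · have hd : v + w ≠ 0 := by
      intro h2
      apply h
      have : ∀ a b : ZMod 2, a + b = 0 → a = b := by decide
      ext i
      · exact this _ _ (congrFun (congrArg Prod.fst h2) i)
      · exact this _ _ (congrFun (congrArg Prod.snd h2) i)
    obtain ⟨e, he⟩ := exists_om hd
    have h2 : ∑ u : Sp m, ch (om u (v + w)) = ∑ u : Sp m, ch (om (u + e) (v + w)) :=
      (Equiv.sum_comp (Equiv.addRight e) fun u => ch (om u (v + w))).symm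
    have h3 : ∀ u : Sp m, ch (om (u + e) (v + w)) = - ch (om u (v + w)) := by
      intro u
      rw [om_add_left, ch_add, he]
      have : ch 1 = -1 := by norm_num [ch, sg]
      rw [this]
      ring
    simp_rw [h3] at h2
    rw [Finset.sum_neg_distrib] at h2
    linarith

theorem normLe_W : NormLe (W (m := m)) (2 ^ m) := by
  intro f g
  have h0 : ∀ x : Sp m, ∑ y, sg (W x y) * f x * g y = f x * ∑ y, ch (om x y) * g y := by
    intro x
    rw [Finset.mul_sum]
    refine Finset.sum_congr rfl fun y _ => ?_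
    unfold ch W
    ring
  simp_rw [h0]
  have h1 : (∑ x, f x * ∑ y, ch (om x y) * g y) ^ 2 ≤
      (∑ x, f x ^ 2) * ∑ x : Sp m, (∑ y, ch (om x y) * g y) ^ 2 :=
    Finset.sum_mul_sq_le_sq_mul_sq _ _ _
  have h2 : ∑ x : Sp m, (∑ y, ch (om x y) * g y) ^ 2 = 4 ^ m * ∑ y, g y ^ 2 := by
    calc ∑ x : Sp m, (∑ y, ch (om x y) * g y) ^ 2
        = ∑ x : Sp m, ∑ y, ∑ z, (g y * g z) * (ch (om x y) * ch (om x z)) := by
          refine Finset.sum_congr rfl fun x _ => ?_
          rw [sq, Finset.sum_mul_sum]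
          refine Finset.sum_congr rfl fun y _ => Finset.sum_congr rfl fun z _ => ?_
          ring
      _ = ∑ y, ∑ z, (g y * g z) * ∑ x : Sp m, ch (om x y) * ch (om x z) := by
          rw [Finset.sum_comm]
          refine Finset.sum_congr rfl fun y _ => ?_
          rw [Finset.sum_comm]
          refine Finset.sum_congr rfl fun z _ => ?_
          rw [Finset.mul_sum]
      _ = ∑ y, ∑ z, (g y * g z) * (if y = z then (4 : ℝ) ^ m else 0) := by
          simp_rw [orth]
      _ = 4 ^ m * ∑ y, g y ^ 2 := by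
          rw [Finset.mul_sum]
          refine Finset.sum_congr rfl fun y _ => ?_
          simp only [mul_ite, mul_zero, Finset.sum_ite_eq, Finset.mem_univ, if_true]
          ring
  rw [h2] at h1
  have h3 : (2 ^ m * √(∑ x, f x ^ 2) * √(∑ y, g y ^ 2)) ^ 2 =
      (∑ x, f x ^ 2) * (4 ^ m * ∑ y, g y ^ 2) := by
    rw [mul_pow, mul_pow, Real.sq_sqrt (Finset.sum_nonneg fun _ _ => sq_nonneg _),
      Real.sq_sqrt (Finset.sum_nonneg fun _ _ => sq_nonneg _), ← pow_mul, mul_comm m 2, pow_mul]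
    norm_num
    ring
  rw [← h3] at h1
  exact abs_le_of_sq_le_sq h1 (by positivity)

theorem rk_W : 4 ^ m ≤ rk (W (m := m)) + 1 := by
  classical
  obtain ⟨P, Q, h⟩ := sgn_factor (W (m := m))
  have h1 : (sgn (W (m := m))).rank ≤ rk (W (m := m)) + 1 := by
    have := rank_le_of_eq_mul _ P Q h
    rwa [Fintype.card_option, Fintype.card_fin] at this
  have h2 : (sgn (W (m := m)))ᵀ * sgn (W (m := m)) = (4 : ℝ) ^ m • (1 : Matrix (Sp m) (Sp m) ℝ) := by
    ext v w
    rw [Matrix.mul_apply, Matrix.smul_apply, Matrix.one_apply]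
    have := orth v w
    unfold ch at this
    simp only [Matrix.transpose_apply, sgn, Matrix.of_apply, W]
    rw [this]
    split_ifs <;> simp
  have h3 : Fintype.card (Sp m) ≤ (sgn (W (m := m))).rank := by
    have h4 : ((4 : ℝ) ^ m • (1 : Matrix (Sp m) (Sp m) ℝ)).rank ≤ (sgn (W (m := m))).rank := by
      rw [← h2]
      exact rank_mul_le_right _ _
    rw [rank_smul_of_mem_nonZeroDivisors _ (mem_nonZeroDivisors_of_ne_zero (by positivity)),
      rank_one] at h4
    exact h4
  have h4 : Fintype.card (Sp m) = 4 ^ m := by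
    rw [Fintype.card_prod, Fintype.card_fun, ZMod.card, Fintype.card_fin, ← mul_pow]
    norm_num
  omega

end

/-! ### The reduction -/

section

variable {X : Type} [Fintype X] [Nonempty X] {m : ℕ}

/-- the graph made from `F` and the symplectic form -/
def Gr (m : ℕ) (F : X → X → Bool) (p q : (X × X) × Sp m) : Bool :=
  xor (xor (F p.1.1 q.1.2) (F q.1.1 p.1.2)) (W p.2 q.2)

theorem gr_symm (F : X → X → Bool) (p q : (X × X) × Sp m) : Gr m F p q = Gr m F q p := by
  unfold Gr W
  rw [om_comm p.2 q.2, Bool.xor_comm (F p.1.1 q.1.2)]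

theorem gr_diag (F : X → X → Bool) (p : (X × X) × Sp m) : Gr m F p p = false := by
  unfold Gr W
  rw [om_self]
  simp

theorem gr_proto (F : X → X → Bool) {c : ℕ} (h : Proto (Gr m F) c) : Proto F c := by
  obtain ⟨owner, a, b, out, h⟩ := h
  obtain ⟨x0⟩ := ‹Nonempty X›
  refine ⟨owner, fun t x => a t ((x, x0), 0), fun t y => b t ((x0, y), 0),
    fun t => xor (out t) (F x0 x0), fun x y => ?_⟩
  show xor (out _) (F x0 x0) = F x y
  rw [h ((x, x0), 0) ((x0, y), 0)]
  unfold Gr W
  rw [om_self]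
  simp

theorem gr_rk_le (F : X → X → Bool) : rk (Gr m F) ≤ (rk F + 1) ^ 2 * 4 ^ m + 1 := by
  classical
  obtain ⟨P, Q, h⟩ := sgn_factor F
  have hs : ∀ x y, sg (F x y) = ∑ i, P x i * Q i y := by
    intro x y
    have : sgn F x y = ∑ i, P x i * Q i y := by
      conv_lhs => rw [h]
      rw [Matrix.mul_apply]
    exact this
  refine (rk_le_of_factor (κ := (Option (Fin (rk F)) × Option (Fin (rk F))) × Sp m) (Gr m F)
    (Matrix.of fun p k => P p.1.1 k.1.1 * Q k.1.2 p.1.2 * (if p.2 = k.2 then 1 else 0))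
    (Matrix.of fun k q => Q k.1.1 q.1.2 * P q.1.1 k.1.2 * sg (W k.2 q.2)) ?_).trans ?_
  · ext p q
    rw [Matrix.mul_apply]
    simp only [sgn, Matrix.of_apply]
    have h1 : sg (Gr m F p q) = sg (F p.1.1 q.1.2) * sg (F q.1.1 p.1.2) * sg (W p.2 q.2) := by
      unfold Gr
      rw [sg_xor, sg_xor]
    rw [h1, hs, hs, Fintype.sum_prod_type]
    have h2 : ∀ k : Option (Fin (rk F)) × Option (Fin (rk F)),
        ∑ w : Sp m, P p.1.1 k.1 * Q k.2 p.1.2 * (if p.2 = w then 1 else 0) *
          (Q k.1 q.1.2 * P q.1.1 k.2 * sg (W w q.2)) =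
        (P p.1.1 k.1 * Q k.1 q.1.2) * (P q.1.1 k.2 * Q k.2 p.1.2) * sg (W p.2 q.2) := by
      intro k
      rw [Finset.sum_eq_single p.2]
      · rw [if_pos rfl]
        ring
      · intro w _ hw
        rw [if_neg (Ne.symm hw)]
        ring
      · intro h; exact absurd (Finset.mem_univ _) h
    simp_rw [h2]
    rw [Fintype.sum_prod_type, Finset.sum_mul_sum, Finset.sum_mul]
    refine Finset.sum_congr rfl fun i _ => ?_
    rw [Finset.sum_mul]
  · rw [Fintype.card_prod, Fintype.card_prod, Fintype.card_option, Fintype.card_fin,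
      Fintype.card_prod, Fintype.card_fun, ZMod.card, Fintype.card_fin, ← mul_pow, sq]
    norm_num

theorem gr_rk_ge (F : X → X → Bool) : 4 ^ m ≤ rk (Gr m F) + 1 := by
  obtain ⟨x0⟩ := ‹Nonempty X›
  refine (rk_W (m := m)).trans ?_
  have h1 : cm (W (m := m)) = (cm (Gr m F)).submatrix (fun u => ((x0, x0), u))
      (fun u => ((x0, x0), u)) := by
    ext u v
    show (if W u v then (1 : ℝ) else 0) =
      if xor (xor (F x0 x0) (F x0 x0)) (W u v) then (1 : ℝ) else 0
    rw [Bool.xor_self, Bool.false_xor]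
  have h2 : rk (W (m := m)) ≤ rk (Gr m F) := by
    show (cm _).rank ≤ (cm _).rank
    rw [h1]
    exact rank_submatrix_le _ _ _
  omega

theorem gr_norm (F : X → X → Bool) :
    NormLe (Gr m F) ((Fintype.card X : ℝ) ^ 2 * 2 ^ m) := by
  intro f g
  have h1 : ∀ p q, sg (Gr m F p q) = sg (F p.1.1 q.1.2) * sg (F q.1.1 p.1.2) * sg (W p.2 q.2) := by
    intro p q
    unfold Gr
    rw [sg_xor, sg_xor]
  have h2 : ∑ p, ∑ q, sg (Gr m F p q) * f p * g q =
      ∑ a : X × X, ∑ b : X × X, sg (F a.1 b.2) * sg (F b.1 a.2) *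
        ∑ u, ∑ v, sg (W u v) * f (a, u) * g (b, v) := by
    rw [Fintype.sum_prod_type]
    refine Finset.sum_congr rfl fun a _ => ?_
    have h3 : ∀ u : Sp m, ∑ q, sg (Gr m F (a, u) q) * f (a, u) * g q =
        ∑ b : X × X, ∑ v, sg (Gr m F (a, u) (b, v)) * f (a, u) * g (b, v) := fun u =>
      Fintype.sum_prod_type _
    simp_rw [h3]
    rw [Finset.sum_comm]
    refine Finset.sum_congr rfl fun b _ => ?_
    rw [Finset.mul_sum]
    refine Finset.sum_congr rfl fun u _ => ?_
    rw [Finset.mul_sum]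
    refine Finset.sum_congr rfl fun v _ => ?_
    rw [h1]
    ring
  rw [h2]
  have h3 : |∑ a : X × X, ∑ b : X × X, sg (F a.1 b.2) * sg (F b.1 a.2) *
        ∑ u, ∑ v, sg (W u v) * f (a, u) * g (b, v)| ≤
      ∑ a : X × X, ∑ b : X × X, 2 ^ m * √(∑ u : Sp m, f (a, u) ^ 2) * √(∑ v : Sp m, g (b, v) ^ 2) := by
    refine (Finset.abs_sum_le_sum_abs _ _).trans (Finset.sum_le_sum fun a _ => ?_)
    refine (Finset.abs_sum_le_sum_abs _ _).trans (Finset.sum_le_sum fun b _ => ?_)
    rw [abs_mul, abs_mul, abs_sg, abs_sg, one_mul, one_mul]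
    exact normLe_W _ _
  refine h3.trans ?_
  have h4 : ∑ a : X × X, ∑ b : X × X, 2 ^ m * √(∑ u : Sp m, f (a, u) ^ 2) *
      √(∑ v : Sp m, g (b, v) ^ 2) = 2 ^ m * ((∑ a : X × X, √(∑ u : Sp m, f (a, u) ^ 2)) *
      ∑ b : X × X, √(∑ v : Sp m, g (b, v) ^ 2)) := by
    rw [Finset.sum_mul_sum, Finset.mul_sum]
    refine Finset.sum_congr rfl fun a _ => ?_
    rw [Finset.mul_sum]
    refine Finset.sum_congr rfl fun b _ => ?_
    ring
  rw [h4]
  have h5 : ∀ f : (X × X) × Sp m → ℝ, ∑ a : X × X, √(∑ u : Sp m, f (a, u) ^ 2) ≤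
      (Fintype.card X : ℝ) * √(∑ p, f p ^ 2) := by
    intro f
    have h6 : (∑ a : X × X, 1 * √(∑ u : Sp m, f (a, u) ^ 2)) ^ 2 ≤
        (∑ a : X × X, (1 : ℝ) ^ 2) * ∑ a : X × X, (√(∑ u : Sp m, f (a, u) ^ 2)) ^ 2 :=
      Finset.sum_mul_sq_le_sq_mul_sq _ _ _
    have h7 : ∑ a : X × X, (√(∑ u : Sp m, f (a, u) ^ 2)) ^ 2 = ∑ p, f p ^ 2 := by
      rw [Fintype.sum_prod_type (fun p => f p ^ 2)]
      exact Finset.sum_congr rfl fun a _ =>
        Real.sq_sqrt (Finset.sum_nonneg fun _ _ => sq_nonneg _)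
    simp only [one_mul, one_pow, Finset.sum_const, Finset.card_univ, Fintype.card_prod,
      nsmul_eq_mul, mul_one] at h6
    rw [h7] at h6
    have h8 : ((Fintype.card X : ℝ) * √(∑ p, f p ^ 2)) ^ 2 =
        ((Fintype.card X * Fintype.card X : ℕ) : ℝ) * ∑ p, f p ^ 2 := by
      rw [mul_pow, Real.sq_sqrt (Finset.sum_nonneg fun _ _ => sq_nonneg _)]
      push_cast
      ring
    rw [← h8] at h6
    exact (abs_le_of_sq_le_sq' h6 (by positivity)).2
  have h6 := mul_le_mul (h5 f) (h5 g) (Finset.sum_nonneg fun _ _ => Real.sqrt_nonneg _)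
    (by positivity)
  calc (2 : ℝ) ^ m * ((∑ a : X × X, √(∑ u : Sp m, f (a, u) ^ 2)) *
      ∑ b : X × X, √(∑ v : Sp m, g (b, v) ^ 2))
      ≤ 2 ^ m * ((Fintype.card X : ℝ) * √(∑ p, f p ^ 2) *
        ((Fintype.card X : ℝ) * √(∑ p, g p ^ 2))) := by gcongr
    _ = (Fintype.card X : ℝ) ^ 2 * 2 ^ m * √(∑ p, f p ^ 2) * √(∑ p, g p ^ 2) := by ring

end

/-! ### Relabelling -/

section

variable {X Z : Type} [Fintype X] [Fintype Z]

theorem rk_equiv (e : Z ≃ X) (F : X → X → Bool) : rk (fun z w => F (e z) (e w)) = rk F := by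
  exact rank_submatrix (cm F) e e

theorem normLe_equiv (e : Z ≃ X) {F : X → X → Bool} {t : ℝ} (h : NormLe F t) :
    NormLe (fun z w => F (e z) (e w)) t := by
  intro f g
  have h1 := h (fun x => f (e.symm x)) fun x => g (e.symm x)
  have h2 : ∑ x, ∑ y, sg (F x y) * f (e.symm x) * g (e.symm y) =
      ∑ z, ∑ w, sg (F (e z) (e w)) * f z * g w := by
    rw [← Equiv.sum_comp e]
    refine Finset.sum_congr rfl fun z _ => ?_
    rw [← Equiv.sum_comp e]
    refine Finset.sum_congr rfl fun w _ => ?_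
    rw [e.symm_apply_apply, e.symm_apply_apply]
  have h3 : ∀ f : Z → ℝ, ∑ x, f (e.symm x) ^ 2 = ∑ z, f z ^ 2 := fun f =>
    Equiv.sum_comp e.symm fun z => f z ^ 2
  rw [h2, h3, h3] at h1
  exact h1

theorem proto_equiv (e : Z ≃ X) {F : X → X → Bool} {c : ℕ}
    (h : Proto (fun z w => F (e z) (e w)) c) : Proto F c := by
  obtain ⟨owner, a, b, out, h⟩ := h
  refine ⟨owner, fun t x => a t (e.symm x), fun t y => b t (e.symm y), out, fun x y => ?_⟩
  have := h (e.symm x) (e.symm y)
  simp only [e.apply_symm_apply] at this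
  exact this

end

/-- The reduction. -/
theorem reduce (n m : ℕ) (F : (Fin n → ZMod 2) → (Fin n → ZMod 2) → Bool) :
    ∃ G : (Fin (2 * n + 2 * m) → ZMod 2) → (Fin (2 * n + 2 * m) → ZMod 2) → Bool,
      (∀ x y, G x y = G y x) ∧ (∀ x, G x x = false) ∧
      rk G ≤ (rk F + 1) ^ 2 * 4 ^ m + 1 ∧ 4 ^ m ≤ rk G + 1 ∧
      NormLe G ((4 : ℝ) ^ n * 2 ^ m) ∧ ∀ c, Proto G c → Proto F c := by
  have hcard : Fintype.card (Fin (2 * n + 2 * m) → ZMod 2) =
      Fintype.card (((Fin n → ZMod 2) × (Fin n → ZMod 2)) × Sp m) := by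
    simp only [Fintype.card_prod, Fintype.card_fun, ZMod.card, Fintype.card_fin]
    ring
  let e := Fintype.equivOfCardEq hcard
  refine ⟨fun z w => Gr m F (e z) (e w), fun x y => gr_symm F _ _, fun x => gr_diag F _, ?_, ?_,
    normLe_equiv e ?_, fun c h => gr_proto F (proto_equiv e h)⟩
  · rw [rk_equiv]
    exact gr_rk_le F
  · rw [rk_equiv]
    exact gr_rk_ge F
  · have h := gr_norm (m := m) F
    have h1 : (Fintype.card (Fin n → ZMod 2) : ℝ) ^ 2 = 4 ^ n := by
      rw [Fintype.card_fun, ZMod.card, Fintype.card_fin]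
      push_cast
      rw [← pow_mul, mul_comm n 2, pow_mul]
      norm_num
    rwa [h1] at h

end Pool.Agent.X224.LF
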