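import Pool.Agent.X224.LF.Opt

set_option autoImplicit false

/-!
# The log-rank conjecture for flat graphs is the log-rank conjecture
-/

namespace Pool.Agent.X224.LF

open Pool.Agent.H630R2.LR

/-- `F` has a deterministic protocol with at most `C (log₂ r) ^ k + C` bits, `r` the rank of its
communication matrix (the matrix of the frozen statement `S15531`). -/
def Bound (C k : ℕ) {n : ℕ} (F : (Fin n → ZMod 2) → (Fin n → ZMod 2) → Bool) : Prop :=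
  ∃ c : ℕ, ∃ owner : List Bool → Bool,
    ∃ a : List Bool → (Fin n → ZMod 2) → Bool,
    ∃ b : List Bool → (Fin n → ZMod 2) → Bool,
    ∃ out : List Bool → Bool,
      (∀ x y : Fin n → ZMod 2,
        out (Nat.iterate
          (fun t : List Bool => t ++ [if owner t then a t x else b t y]) c []) = F x y) ∧
      (c : ℝ) ≤ (C : ℝ) * (Real.logb 2 (rk F : ℝ)) ^ k + (C : ℝ)

/-- The matrix of `F` is the adjacency matrix of a simple graph. -/
def IsGraph {n : ℕ} (F : (Fin n → ZMod 2) → (Fin n → ZMod 2) → Bool) : Prop :=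
  (∀ x y, F x y = F y x) ∧ ∀ x, F x x = false

/-- The spectral norm of the sign matrix of `F` is at most `s` times `2 ^ n / √r`. -/
def Flat (s : ℝ) {n : ℕ} (F : (Fin n → ZMod 2) → (Fin n → ZMod 2) → Bool) : Prop :=
  NormLe F (s * (2 ^ n / √(rk F : ℝ)))

theorem Bound.proto {C k n : ℕ} {F : (Fin n → ZMod 2) → (Fin n → ZMod 2) → Bool}
    (h : Bound C k F) : ∃ c : ℕ, Proto F c ∧ (c : ℝ) ≤ (C : ℝ) * (Real.logb 2 (rk F : ℝ)) ^ k + C := by
  obtain ⟨c, owner, a, b, out, h1, h2⟩ := h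
  exact ⟨c, ⟨owner, a, b, out, h1⟩, h2⟩

theorem Bound.of_proto {C k n c : ℕ} {F : (Fin n → ZMod 2) → (Fin n → ZMod 2) → Bool}
    (h : Proto F c) (hc : (c : ℝ) ≤ (C : ℝ) * (Real.logb 2 (rk F : ℝ)) ^ k + C) : Bound C k F := by
  obtain ⟨owner, a, b, out, h1⟩ := h
  exact ⟨c, owner, a, b, out, h1, hc⟩

theorem logb_nonneg_nat (r : ℕ) : 0 ≤ Real.logb 2 (r : ℝ) := by
  rcases Nat.eq_zero_or_pos r with h | h
  · simp [h]
  · exact Real.logb_nonneg (by norm_num) (by exact_mod_cast h)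

theorem L_le (r : ℕ) : Real.logb 2 ((r : ℝ) + 2) ≤ 2 + Real.logb 2 (r : ℝ) := by
  rcases Nat.eq_zero_or_pos r with h | h
  · subst h
    norm_num
  · have hr : (1 : ℝ) ≤ r := by exact_mod_cast h
    have h1 : Real.logb 2 ((r : ℝ) + 2) ≤ Real.logb 2 (4 * (r : ℝ)) :=
      Real.logb_le_logb_of_le (by norm_num) (by positivity) (by linarith)
    have h2 : Real.logb 2 (4 * (r : ℝ)) = 2 + Real.logb 2 (r : ℝ) := by
      rw [Real.logb_mul (by norm_num) (by positivity)]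
      congr 1
      rw [show (4 : ℝ) = 2 ^ (2 : ℕ) by norm_num, Real.logb_pow]
      norm_num
    linarith

theorem one_le_L (r : ℕ) : 1 ≤ Real.logb 2 ((r : ℝ) + 2) := by
  have h1 : Real.logb 2 2 ≤ Real.logb 2 ((r : ℝ) + 2) :=
    Real.logb_le_logb_of_le (by norm_num) (by norm_num) (by
      have : (0 : ℝ) ≤ r := Nat.cast_nonneg r
      linarith)
  rwa [Real.logb_self_eq_one (by norm_num)] at h1

theorem pow_add_two {l : ℝ} (hl : 0 ≤ l) (k : ℕ) : (2 + l) ^ k ≤ 4 ^ k * l ^ k + 4 ^ k := by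
  rcases le_total l 2 with h | h
  · have h1 : (2 + l) ^ k ≤ 4 ^ k := pow_le_pow_left₀ (by linarith) (by linarith) k
    have h2 : (0 : ℝ) ≤ 4 ^ k * l ^ k := by positivity
    linarith
  · have h1 : (2 + l) ^ k ≤ (4 * l) ^ k := pow_le_pow_left₀ (by linarith) (by linarith) k
    rw [mul_pow] at h1
    have h2 : (0 : ℝ) ≤ 4 ^ k := by positivity
    linarith

/-- The facts about ranks. -/
theorem facts {r r' m : ℕ} (hm : 1 ≤ m) (h1 : r' ≤ (r + 1) ^ 2 * 4 ^ m + 1) (h2 : 4 ^ m ≤ r' + 1) :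
    1 ≤ r' ∧ √(r' : ℝ) ≤ ((r : ℝ) + 2) * 2 ^ m ∧ (m : ℝ) ≤ Real.logb 2 (r' : ℝ) ∧
      Real.logb 2 (r' : ℝ) ≤ 2 * Real.logb 2 ((r : ℝ) + 2) + 2 * m := by
  have h3 : 2 ^ m ≤ r' := by
    have h4 : 2 ^ m * 2 ^ m = 4 ^ m := by
      rw [← mul_pow]
      norm_num
    have h5 : 2 ≤ 2 ^ m := by
      calc 2 = 2 ^ 1 := rfl
        _ ≤ 2 ^ m := Nat.pow_le_pow_right (by norm_num) hm
    nlinarith
  have h30 : 1 ≤ r' := Nat.one_le_two_pow.trans h3
  have h4 : (r' : ℝ) ≤ (((r : ℝ) + 2) * 2 ^ m) ^ 2 := by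
    have h5 : r' ≤ (r + 2) ^ 2 * 4 ^ m := by
      refine h1.trans ?_
      have h6 : 1 ≤ 4 ^ m := Nat.one_le_pow _ _ (by norm_num)
      have h7 : (r + 1) ^ 2 + 1 ≤ (r + 2) ^ 2 := by
        have h8 : (r + 2) ^ 2 = (r + 1) ^ 2 + (2 * r + 3) := by ring
        rw [h8]
        exact Nat.add_le_add_left (by omega) _
      calc (r + 1) ^ 2 * 4 ^ m + 1 ≤ (r + 1) ^ 2 * 4 ^ m + 4 ^ m := by omega
        _ = ((r + 1) ^ 2 + 1) * 4 ^ m := by ring
        _ ≤ (r + 2) ^ 2 * 4 ^ m := Nat.mul_le_mul_right _ h7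
    have h6 : ((r' : ℕ) : ℝ) ≤ (((r + 2) ^ 2 * 4 ^ m : ℕ) : ℝ) := by exact_mod_cast h5
    refine h6.trans (le_of_eq ?_)
    push_cast
    rw [mul_pow, ← pow_mul, mul_comm m 2, pow_mul]
    norm_num
  have hr'0 : (0 : ℝ) < r' := by exact_mod_cast h30
  refine ⟨h30, ?_, ?_, ?_⟩
  · rw [Real.sqrt_le_left (by positivity)]
    exact h4
  · rw [Real.le_logb_iff_rpow_le (by norm_num) hr'0, Real.rpow_natCast]
    exact_mod_cast h3
  · refine (Real.logb_le_logb_of_le (by norm_num) hr'0 h4).trans (le_of_eq ?_)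
    rw [Real.logb_pow, Real.logb_mul (by positivity) (by positivity), Real.logb_pow,
      Real.logb_self_eq_one (by norm_num)]
    push_cast
    ring

/-- Flatness of the graph made by the reduction. -/
theorem flat_of {n m r : ℕ} {s : ℝ}
    {G : (Fin (2 * n + 2 * m) → ZMod 2) → (Fin (2 * n + 2 * m) → ZMod 2) → Bool}
    (h1 : 1 ≤ rk G) (h2 : √(rk G : ℝ) ≤ ((r : ℝ) + 2) * 2 ^ m) (hs : (r : ℝ) + 2 ≤ s)
    (hG : NormLe G ((4 : ℝ) ^ n * 2 ^ m)) : Flat s G := by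
  intro f g
  refine (hG f g).trans ?_
  have h3 : (0 : ℝ) < √(rk G : ℝ) := Real.sqrt_pos.2 (by exact_mod_cast h1)
  have h4 : (4 : ℝ) ^ n * 2 ^ m ≤ s * (2 ^ (2 * n + 2 * m) / √(rk G : ℝ)) := by
    rw [← mul_div_assoc, le_div_iff₀ h3]
    have h5 : (4 : ℝ) ^ n = 2 ^ (2 * n) := by
      rw [pow_mul]
      norm_num
    calc (4 : ℝ) ^ n * 2 ^ m * √(rk G : ℝ) ≤ 4 ^ n * 2 ^ m * (((r : ℝ) + 2) * 2 ^ m) := by gcongr
      _ ≤ 4 ^ n * 2 ^ m * (s * 2 ^ m) := by gcongr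
      _ = s * 2 ^ (2 * n + 2 * m) := by
          rw [h5, pow_add, two_mul m, pow_add]
          ring
  gcongr

theorem same_exponent (ε : ℝ) (hε : 0 < ε) (k C : ℕ)
    (h : ∀ (n : ℕ) (F : (Fin n → ZMod 2) → (Fin n → ZMod 2) → Bool), IsGraph F →
      Flat ((rk F : ℝ) ^ ε) F → Bound C k F) :
    ∃ C' : ℕ, ∀ (n : ℕ) (F : (Fin n → ZMod 2) → (Fin n → ZMod 2) → Bool), Bound C' k F := by
  refine ⟨⌈(C : ℝ) * (6 + 2 / ε) ^ k * 4 ^ k + C⌉₊, fun n F => ?_⟩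
  set r := rk F with hr
  set L := Real.logb 2 ((r : ℝ) + 2) with hL
  have hL1 : 1 ≤ L := one_le_L r
  set m := ⌈L / ε⌉₊ + 1 with hm
  obtain ⟨G, hG1, hG2, hG3, hG4, hG5, hG6⟩ := reduce n m F
  obtain ⟨f1, f2, f3, f4⟩ := facts (r := r) (r' := rk G) (m := m) (by omega) hG3 hG4
  have hmL : L / ε ≤ m := by
    rw [hm]
    push_cast
    linarith [Nat.le_ceil (L / ε)]
  have hmU : (m : ℝ) ≤ L / ε + 2 := by
    rw [hm]
    push_cast
    have := (Nat.ceil_lt_add_one (a := L / ε) (by positivity)).le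
    linarith
  have hs : (r : ℝ) + 2 ≤ (rk G : ℝ) ^ ε := by
    have h1 : (r : ℝ) + 2 = 2 ^ L := by
      rw [hL, Real.rpow_logb (by norm_num) (by norm_num) (by positivity)]
    have h2 : (rk G : ℝ) ^ ε = 2 ^ (Real.logb 2 (rk G : ℝ) * ε) := by
      rw [Real.rpow_mul (by norm_num),
        Real.rpow_logb (by norm_num) (by norm_num) (by exact_mod_cast f1)]
    rw [h1, h2]
    refine Real.rpow_le_rpow_of_exponent_le (by norm_num) ?_
    have h3 : L / ε ≤ Real.logb 2 (rk G : ℝ) := hmL.trans f3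
    rwa [div_le_iff₀ hε] at h3
  obtain ⟨c, hc1, hc2⟩ := (h _ G ⟨hG1, hG2⟩ (flat_of f1 f2 hs hG5)).proto
  refine Bound.of_proto (hG6 c hc1) ?_
  have hl0 : 0 ≤ Real.logb 2 (r : ℝ) := logb_nonneg_nat r
  have h5 : Real.logb 2 (rk G : ℝ) ≤ (6 + 2 / ε) * L := by
    have : 2 / ε * L = 2 * (L / ε) := by ring
    nlinarith
  have h6 : (Real.logb 2 (rk G : ℝ)) ^ k ≤ (6 + 2 / ε) ^ k * (4 ^ k * Real.logb 2 (r : ℝ) ^ k + 4 ^ k) := by
    calc (Real.logb 2 (rk G : ℝ)) ^ k ≤ ((6 + 2 / ε) * L) ^ k :=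
          pow_le_pow_left₀ (logb_nonneg_nat _) h5 k
      _ = (6 + 2 / ε) ^ k * L ^ k := mul_pow _ _ _
      _ ≤ (6 + 2 / ε) ^ k * (2 + Real.logb 2 (r : ℝ)) ^ k := by
          have := L_le r
          gcongr
      _ ≤ _ := by
          have := pow_add_two hl0 k
          gcongr
  have h7 := Nat.le_ceil ((C : ℝ) * (6 + 2 / ε) ^ k * 4 ^ k + C)
  have h8 : 0 ≤ Real.logb 2 (r : ℝ) ^ k := pow_nonneg hl0 k
  calc (c : ℝ) ≤ C * (Real.logb 2 (rk G : ℝ)) ^ k + C := hc2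
    _ ≤ C * ((6 + 2 / ε) ^ k * (4 ^ k * Real.logb 2 (r : ℝ) ^ k + 4 ^ k)) + C := by gcongr
    _ = (C * (6 + 2 / ε) ^ k * 4 ^ k) * Real.logb 2 (r : ℝ) ^ k +
        (C * (6 + 2 / ε) ^ k * 4 ^ k + C) := by ring
    _ ≤ (C * (6 + 2 / ε) ^ k * 4 ^ k + C) * Real.logb 2 (r : ℝ) ^ k +
        (C * (6 + 2 / ε) ^ k * 4 ^ k + C) := by
          have : (0 : ℝ) ≤ C * Real.logb 2 (r : ℝ) ^ k := by positivity
          nlinarith
    _ ≤ _ := by gcongr

theorem subpolynomial (δ : ℝ) (hδ : 0 < δ) (hδ1 : δ ≤ 1) (k C : ℕ)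
    (h : ∀ (n : ℕ) (F : (Fin n → ZMod 2) → (Fin n → ZMod 2) → Bool), IsGraph F →
      Flat (2 ^ (Real.logb 2 (rk F : ℝ) ^ δ)) F → Bound C k F) :
    ∃ C' k' : ℕ, ∀ (n : ℕ) (F : (Fin n → ZMod 2) → (Fin n → ZMod 2) → Bool), Bound C' k' F := by
  set K := ⌈(k : ℝ) / δ⌉₊ with hK
  refine ⟨C * 8 ^ k * 4 ^ K + C, K, fun n F => ?_⟩
  set r := rk F with hr
  set L := Real.logb 2 ((r : ℝ) + 2) with hL
  have hL1 : 1 ≤ L := one_le_L r
  have hL0 : 0 ≤ L := by linarith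
  have hδ2 : 1 ≤ 1 / δ := by rwa [le_div_iff₀ hδ, one_mul]
  set M := L ^ (1 / δ) with hM
  have hM1 : L ≤ M := by
    calc L = L ^ (1 : ℝ) := (Real.rpow_one L).symm
      _ ≤ L ^ (1 / δ) := Real.rpow_le_rpow_of_exponent_le hL1 hδ2
  set m := ⌈M⌉₊ + 1 with hm
  obtain ⟨G, hG1, hG2, hG3, hG4, hG5, hG6⟩ := reduce n m F
  obtain ⟨f1, f2, f3, f4⟩ := facts (r := r) (r' := rk G) (m := m) (by omega) hG3 hG4
  have hmL : M ≤ m := by
    rw [hm]
    push_cast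
    linarith [Nat.le_ceil M]
  have hmU : (m : ℝ) ≤ M + 2 := by
    rw [hm]
    push_cast
    have := (Nat.ceil_lt_add_one (a := M) (by linarith)).le
    linarith
  have hs : (r : ℝ) + 2 ≤ 2 ^ (Real.logb 2 (rk G : ℝ) ^ δ) := by
    have h1 : (r : ℝ) + 2 = 2 ^ L := by
      rw [hL, Real.rpow_logb (by norm_num) (by norm_num) (by positivity)]
    rw [h1]
    refine Real.rpow_le_rpow_of_exponent_le (by norm_num) ?_
    have h2 : L = M ^ δ := by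
      rw [hM, ← Real.rpow_mul hL0, one_div_mul_cancel hδ.ne', Real.rpow_one]
    rw [h2]
    exact Real.rpow_le_rpow (by linarith) (hmL.trans f3) hδ.le
  obtain ⟨c, hc1, hc2⟩ := (h _ G ⟨hG1, hG2⟩ (flat_of f1 f2 hs hG5)).proto
  refine Bound.of_proto (hG6 c hc1) ?_
  have hl0 : 0 ≤ Real.logb 2 (r : ℝ) := logb_nonneg_nat r
  have h5 : Real.logb 2 (rk G : ℝ) ≤ 8 * M := by linarith
  have h6 : (Real.logb 2 (rk G : ℝ)) ^ k ≤ 8 ^ k * (4 ^ K * Real.logb 2 (r : ℝ) ^ K + 4 ^ K) := by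
    calc (Real.logb 2 (rk G : ℝ)) ^ k ≤ (8 * M) ^ k :=
          pow_le_pow_left₀ (logb_nonneg_nat _) h5 k
      _ = 8 ^ k * M ^ k := mul_pow _ _ _
      _ ≤ 8 ^ k * L ^ K := by
          have h7 : M ^ k ≤ L ^ K := by
            rw [hM, ← Real.rpow_natCast (L ^ (1 / δ)) k, ← Real.rpow_mul hL0,
              ← Real.rpow_natCast L K]
            refine Real.rpow_le_rpow_of_exponent_le hL1 ?_
            rw [one_div_mul_eq_div]
            exact Nat.le_ceil _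
          gcongr
      _ ≤ 8 ^ k * (2 + Real.logb 2 (r : ℝ)) ^ K := by
          have := L_le r
          gcongr
      _ ≤ _ := by
          have := pow_add_two hl0 K
          gcongr
  calc (c : ℝ) ≤ C * (Real.logb 2 (rk G : ℝ)) ^ k + C := hc2
    _ ≤ C * (8 ^ k * (4 ^ K * Real.logb 2 (r : ℝ) ^ K + 4 ^ K)) + C := by gcongr
    _ = (C * 8 ^ k * 4 ^ K) * Real.logb 2 (r : ℝ) ^ K + (C * 8 ^ k * 4 ^ K + C) := by ring
    _ ≤ (C * 8 ^ k * 4 ^ K + C) * Real.logb 2 (r : ℝ) ^ K + (C * 8 ^ k * 4 ^ K + C) := by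
          have : (0 : ℝ) ≤ C * Real.logb 2 (r : ℝ) ^ K := by positivity
          nlinarith
    _ = _ := by push_cast; ring

end Pool.Agent.X224.LF
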