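import Pool.Agent.X224.LF.Core

set_option autoImplicit false

/-!
# The spectral norm of a sign matrix of rank `ρ` is at least the order divided by `√ρ`
-/

namespace Pool.Agent.X224.LF

open Finset Matrix Pool.Agent.W966.Kron

variable {X : Type} [Fintype X] [Nonempty X]

theorem NormLe.nonneg {F : X → X → Bool} {t : ℝ} (h : NormLe F t) : 0 ≤ t := by
  have h1 := (abs_nonneg _).trans (h (fun _ => 1) fun _ => 1)
  have h2 : 0 < √(∑ _x : X, (1 : ℝ) ^ 2) := by
    apply Real.sqrt_pos.2
    rw [one_pow, Finset.sum_const, Finset.card_univ, nsmul_eq_mul, mul_one]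
    exact_mod_cast Fintype.card_pos
  by_contra hcon
  push Not at hcon
  have h3 : t * √(∑ _x : X, (1 : ℝ) ^ 2) * √(∑ _x : X, (1 : ℝ) ^ 2) < 0 :=
    mul_neg_of_neg_of_pos (mul_neg_of_neg_of_pos hcon h2) h2
  linarith

theorem norm_ge {F : X → X → Bool} {t : ℝ} (h : NormLe F t) :
    (Fintype.card X : ℝ) ≤ √((rk F : ℝ) + 1) * t := by
  classical
  have ht := h.nonneg
  let S : Matrix X X ℝ := sgn F
  have hA : (S * Sᴴ).IsHermitian := isHermitian_mul_conjTranspose_self S
  have hrank : (S * Sᴴ).rank ≤ rk F + 1 := by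
    obtain ⟨P, Q, hPQ⟩ := sgn_factor F
    have h1 := rank_le_of_eq_mul _ P Q hPQ
    rw [Fintype.card_option, Fintype.card_fin] at h1
    exact (rank_mul_le_left _ _).trans h1
  have htr : (S * Sᴴ).trace = (Fintype.card X : ℝ) * Fintype.card X := by
    unfold Matrix.trace
    have h1 : ∀ x, (S * Sᴴ).diag x = Fintype.card X := by
      intro x
      rw [Matrix.diag_apply, Matrix.mul_apply]
      have : ∀ y, S x y * Sᴴ y x = 1 := fun y => by
        rw [Matrix.conjTranspose_apply, star_trivial]
        exact sg_sq _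
      simp_rw [this]
      rw [Finset.sum_const, Finset.card_univ, nsmul_eq_mul, mul_one]
    simp_rw [h1]
    rw [Finset.sum_const, Finset.card_univ, nsmul_eq_mul]
  have hev : ∀ i, hA.eigenvalues i ≤ t ^ 2 := by
    intro i
    let v : X → ℝ := ⇑(hA.eigenvectorBasis i)
    have hv1 : (S * Sᴴ) *ᵥ v = hA.eigenvalues i • v := hA.mulVec_eigenvectorBasis i
    have hv2 : ∑ x, v x ^ 2 = 1 := by
      have h1 : ‖hA.eigenvectorBasis i‖ = 1 := (hA.eigenvectorBasis).orthonormal.1 i
      rw [EuclideanSpace.norm_eq] at h1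
      have h2 : ∑ x, ‖(hA.eigenvectorBasis i) x‖ ^ 2 = 1 := by
        have h3 := congrArg (fun z : ℝ => z ^ 2) h1
        simp only [one_pow] at h3
        rwa [Real.sq_sqrt (Finset.sum_nonneg fun _ _ => sq_nonneg _)] at h3
      rw [← h2]
      exact Finset.sum_congr rfl fun x _ => by rw [Real.norm_eq_abs, sq_abs]
    let g : X → ℝ := fun y => ∑ x, S x y * v x
    have hg : ∑ y, g y ^ 2 = hA.eigenvalues i := by
      calc ∑ y, g y ^ 2 = ∑ y, ∑ x, ∑ x', v x * (S x y * (S x' y * v x')) := by
            refine Finset.sum_congr rfl fun y _ => ?_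
            rw [sq, Finset.sum_mul_sum]
            refine Finset.sum_congr rfl fun x _ => Finset.sum_congr rfl fun x' _ => ?_
            ring
        _ = ∑ x, v x * ∑ x', (∑ y, S x y * S x' y) * v x' := by
            rw [Finset.sum_comm]
            refine Finset.sum_congr rfl fun x _ => ?_
            rw [Finset.sum_comm, Finset.mul_sum]
            refine Finset.sum_congr rfl fun x' _ => ?_
            rw [Finset.sum_mul, Finset.mul_sum]
            refine Finset.sum_congr rfl fun y _ => ?_
            ring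
        _ = ∑ x, v x * ((S * Sᴴ) *ᵥ v) x := by
            refine Finset.sum_congr rfl fun x _ => ?_
            congr 1
        _ = ∑ x, v x * (hA.eigenvalues i * v x) := by
            rw [hv1]
            rfl
        _ = hA.eigenvalues i := by
            have : ∀ x, v x * (hA.eigenvalues i * v x) = hA.eigenvalues i * v x ^ 2 := fun x => by
              ring
            simp_rw [this]
            rw [← Finset.mul_sum, hv2, mul_one]
    have h1 := h v g
    have h2 : ∑ x, ∑ y, sg (F x y) * v x * g y = ∑ y, g y ^ 2 := by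
      rw [Finset.sum_comm]
      refine Finset.sum_congr rfl fun y _ => ?_
      rw [sq]
      show _ = (∑ x, S x y * v x) * g y
      rw [Finset.sum_mul]
      rfl
    rw [h2, hv2, hg, Real.sqrt_one, mul_one] at h1
    by_cases h0 : hA.eigenvalues i ≤ 0
    · exact h0.trans (sq_nonneg t)
    · push Not at h0
      rw [abs_of_pos h0] at h1
      have h3 : √(hA.eigenvalues i) ≤ t := by
        have h4 : √(hA.eigenvalues i) * √(hA.eigenvalues i) ≤ t * √(hA.eigenvalues i) := by
          rwa [Real.mul_self_sqrt h0.le]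
        exact le_of_mul_le_mul_right h4 (Real.sqrt_pos.2 h0)
      calc hA.eigenvalues i = √(hA.eigenvalues i) ^ 2 := (Real.sq_sqrt h0.le).symm
        _ ≤ t ^ 2 := pow_le_pow_left₀ (Real.sqrt_nonneg _) h3 2
  have hsum : (S * Sᴴ).trace ≤ ((rk F : ℝ) + 1) * t ^ 2 := by
    rw [hA.trace_eq_sum_eigenvalues]
    have h1 : ∑ i, ((hA.eigenvalues i : ℝ) : ℝ) ≤
        ∑ i, if hA.eigenvalues i ≠ 0 then t ^ 2 else 0 := by
      refine Finset.sum_le_sum fun i _ => ?_
      split_ifs with h0
      · exact hev i
      · push Not at h0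
        exact h0.le
    refine (le_of_eq ?_).trans (h1.trans ?_)
    · rfl
    · rw [← Finset.sum_filter, Finset.sum_const, nsmul_eq_mul]
      have h2 : (Finset.univ.filter fun i => hA.eigenvalues i ≠ 0).card = (S * Sᴴ).rank := by
        rw [hA.rank_eq_card_non_zero_eigs, Fintype.card_subtype]
      rw [h2]
      have h3 : (((S * Sᴴ).rank : ℕ) : ℝ) ≤ (rk F : ℝ) + 1 := by exact_mod_cast hrank
      gcongr
  rw [htr] at hsum
  have h5 : (Fintype.card X : ℝ) ^ 2 ≤ (√((rk F : ℝ) + 1) * t) ^ 2 := by
    rw [mul_pow, Real.sq_sqrt (by positivity), sq]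
    exact hsum
  exact (abs_le_of_sq_le_sq' h5 (by positivity)).2

end Pool.Agent.X224.LF
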